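import Mathlib

set_option autoImplicit false

open Filter Topology

namespace Pool.Agent.MQG.QG

universe u

/-- The universal convolution structure of a (second countable) locally compact quantum group `G`:
`A` plays the role of the universal C*-algebra `C_0^u(G)`, `E` that of its dual Banach space
`C_0^u(G)^*` with the convolution product, whose unit is the counit. -/
structure ConvData (A E : Type u) [NonUnitalCStarAlgebra A] [NormedRing E]
    [NormedAlgebra ℂ E] where
  /-- `E` is isometrically the dual space of `A` -/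
  pair : E ≃ₗᵢ[ℂ] (A →L[ℂ] ℂ)
  /-- the slices `(id ⊗ μ) Δ(a)` of the comultiplication -/
  sliceR : E → A → A
  pair_mul_right : ∀ (ν μ : E) (a : A), pair (ν * μ) a = pair ν (sliceR μ a)
  /-- the slices `(ν ⊗ id) Δ(a)` of the comultiplication -/
  sliceL : E → A → A
  pair_mul_left : ∀ (ν μ : E) (a : A), pair (ν * μ) a = pair μ (sliceL ν a)

variable {A E : Type u} [NonUnitalCStarAlgebra A] [NormedRing E] [NormedAlgebra ℂ E]

namespace ConvData

/-- `μ` is a state of the C*-algebra `A`: a positive functional of norm one. -/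
def IsState (D : ConvData A E) (μ : E) : Prop :=
  ‖μ‖ = 1 ∧ ∀ a : A, ∃ r : ℝ, 0 ≤ r ∧ D.pair μ (star a * a) = (r : ℂ)

/-- The filter of the weak* neighbourhoods of the counit in the set of states. -/
noncomputable def nearUnit (D : ConvData A E) : Filter E :=
  comap (fun (μ : E) (a : A) => D.pair μ a) (𝓝 (fun a : A => D.pair 1 a)) ⊓
    𝓟 {μ | D.IsState μ}

end ConvData

/-- The full data: the convolution structure, the predual `L^1(G)`, and the properties used. -/
structure QGroup (A E : Type u) [NonUnitalCStarAlgebra A] [NormedRing E]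
    [NormedAlgebra ℂ E] extends ConvData A E where
  /-- the counit is a state -/
  counit_state : toConvData.IsState 1
  /-- convolutions of states are states -/
  state_mul : ∀ μ ν : E, toConvData.IsState μ → toConvData.IsState ν → toConvData.IsState (μ * ν)
  /-- the space `L^1(G)` -/
  L1 : Submodule ℂ E
  L1_separable : TopologicalSpace.IsSeparable (L1 : Set E)
  /-- `L^1(G)` is a left ideal -/
  L1_mul_left : ∀ (μ ω : E), toConvData.IsState μ → ω ∈ L1 → μ * ω ∈ L1
  L1_state : ∃ ω ∈ L1, toConvData.IsState ω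
  /-- if states `μ` tend weak* to the counit, then `μ ω → ω` weakly for every `ω ∈ L^1(G)` -/
  L1_tendsto : ∀ ω ∈ L1, ∀ f : E →L[ℂ] ℂ,
    Tendsto (fun μ => f (μ * ω)) toConvData.nearUnit (𝓝 (f ω))

/-- `T μ = (μ ⊗ id)(W)`: a representation of the convolution algebra in a Banach algebra `M`
(bounded operators on a Hilbert space) and a closed subalgebra `B` of `M`, which plays the role of
`C_0(Ĝ)`. -/
structure Rep (D : QGroup A E) (M : Type u) [NormedRing M] [NormedAlgebra ℂ M] where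
  /-- the representation -/
  T : E →ₐ[ℂ] M
  norm_le : ∀ μ : E, ‖T μ‖ ≤ ‖μ‖
  /-- the subalgebra -/
  B : Submodule ℂ M
  closed : IsClosed (B : Set M)
  mul_mem : ∀ x ∈ B, ∀ y ∈ B, x * y ∈ B
  L1_mem : ∀ ω ∈ D.L1, T ω ∈ B
  /-- strict continuity at the counit -/
  strict_left : ∀ b ∈ B, Tendsto (fun μ => T μ * b) D.nearUnit (𝓝 b)
  strict_right : ∀ b ∈ B, Tendsto (fun μ => b * T μ) D.nearUnit (𝓝 b)
  /-- functionals -/
  Φ : Set (M →L[ℂ] ℂ)
  Φ_tendsto : ∀ φ ∈ Φ, ∀ l : Filter E, (∀ᶠ μ in l, D.IsState μ) →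
    (∀ b ∈ B, Tendsto (fun μ => T μ * b) l (𝓝 b)) → Tendsto (fun μ => φ (T μ)) l (𝓝 (φ 1))
  /-- the slice `(id ⊗ φ)(W)` -/
  slice : Φ → A
  slice_pair : ∀ (p : Φ) (μ : E), p.1 (T μ) = D.pair μ (slice p)
  /-- the slices are total in `A` -/
  slice_dense : Dense (Submodule.span ℂ (Set.range slice) : Set A)
  /-- the functionals separate the elements of `M` -/
  separating : ∀ x : M, (∀ p ∈ Φ, p x = 0) → x = 0

variable {M : Type u} [NormedRing M] [NormedAlgebra ℂ M]

variable (D : QGroup A E) (R : Rep D M)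

/-- `G` is amenable. -/
def QGroup.Amenable (D : QGroup A E) : Prop :=
  ∃ l : Filter E, l.NeBot ∧ (∀ᶠ μ in l, μ ∈ D.L1 ∧ D.IsState μ) ∧
    ∀ ω ∈ D.L1, D.IsState ω → Tendsto (fun μ => ‖ω * μ - μ‖) l (𝓝 0)

/-- `T(μ)` lies in `B = C_0(Ĝ)`. -/
def Rep.InB {D : QGroup A E} (R : Rep D M) (μ : E) : Prop :=
  R.T μ ∈ R.B

/-- The Haagerup property of `Ĝ`: a net of states `μ` such that the `T μ` lie in `B` and form
an approximate identity of `B`. -/
def Rep.Haagerup {D : QGroup A E} (R : Rep D M) : Prop :=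
  ∃ l : Filter E, l.NeBot ∧ (∀ᶠ μ in l, D.IsState μ ∧ R.InB μ) ∧
    (∀ b ∈ R.B, Tendsto (fun μ => R.T μ * b) l (𝓝 b)) ∧
    (∀ b ∈ R.B, Tendsto (fun μ => b * R.T μ) l (𝓝 b))

/-- Condition `(S_T)`: a weak* continuous convolution semigroup of states `μ t` with
`‖ω μ t - μ t‖ → 0` for `t → ∞` and `T (μ t) ∈ B` for `t > 0`. -/
def QGroup.CondS (D : QGroup A E) (R : Rep D M) : Prop :=
  ∃ μ : ℝ → E, (∀ t, 0 ≤ t → D.IsState (μ t)) ∧ μ 0 = 1 ∧
    (∀ s t, 0 ≤ s → 0 ≤ t → μ (s + t) = μ s * μ t) ∧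
    (∀ a : A, Tendsto (fun t => D.pair (μ t) a) (𝓝[>] 0) (𝓝 (D.pair 1 a))) ∧
    (∀ ω ∈ D.L1, D.IsState ω → Tendsto (fun t => ‖ω * μ t - μ t‖) atTop (𝓝 0)) ∧
    (∀ t, 0 < t → R.InB (μ t))

end Pool.Agent.MQG.QG
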