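import Mathlib

set_option autoImplicit false

open Filter Topology

namespace Pool.Agent.MQG.QG

section mvt

variable {W : Type*} [NormedAddCommGroup W] [NormedSpace ℝ W]

theorem mvt {f f' : ℝ → W} {T C : ℝ} (hT : 0 ≤ T) (hf : ∀ x, HasDerivAt f (f' x) x)
    (hb : ∀ x, 0 ≤ x → x ≤ T → ‖f' x‖ ≤ C) : ‖f T - f 0‖ ≤ C * T := by
  have h := norm_image_sub_le_of_norm_deriv_le_segment' (f := f) (f' := f') (a := 0) (b := T)
    (C := C) (fun x _ => (hf x).hasDerivWithinAt) (fun x hx => hb x hx.1 hx.2.le) T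
    ⟨hT, le_rfl⟩
  simpa using h

end mvt

variable {F : Type*} [NormedRing F] [NormedAlgebra ℂ F]

/-- `exp (t G)` -/
noncomputable def ex (G : F) (t : ℝ) : F := NormedSpace.exp ((t : ℂ) • G)

theorem ex_zero (G : F) : ex G 0 = 1 := by simp [ex]

theorem ex_zero_left (t : ℝ) : ex (0 : F) t = 1 := by simp [ex]

variable [CompleteSpace F]

theorem ex_add (G : F) (s t : ℝ) : ex G (s + t) = ex G s * ex G t := by
  have hr : ∀ a b : ℂ, Commute (a • G) (b • G) := fun a b =>
    ((Commute.refl G).smul_left a).smul_right b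
  let _ : NormedAlgebra ℚ F := NormedAlgebra.restrictScalars ℚ ℂ F
  rw [ex, ex, ex, Complex.ofReal_add, add_smul, NormedSpace.exp_add_of_commute (hr _ _)]

theorem hasDerivAt_ex (G : F) (t : ℝ) : HasDerivAt (ex G) (ex G t * G) t :=
  by
  have h := (hasDerivAt_exp_smul_const G (t : ℂ)).scomp t (Complex.ofRealCLM.hasDerivAt (x := t))
  have h2 : (Complex.ofRealCLM 1) • (NormedSpace.exp ((t : ℂ) • G) * G) = ex G t * G := by
    simp [ex]
  rw [h2] at h
  exact h

theorem hasDerivAt_ex' (G : F) (t : ℝ) : HasDerivAt (ex G) (G * ex G t) t :=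
  by
  have h := (hasDerivAt_exp_smul_const' G (t : ℂ)).scomp t (Complex.ofRealCLM.hasDerivAt (x := t))
  have h2 : (Complex.ofRealCLM 1) • (G * NormedSpace.exp ((t : ℂ) • G)) = G * ex G t := by
    simp [ex]
  rw [h2] at h
  exact h

theorem continuous_ex (G : F) : Continuous (ex G) :=
  continuous_iff_continuousAt.2 fun t => (hasDerivAt_ex G t).continuousAt

theorem hasDerivAt_ex_sub (G : F) (c t : ℝ) :
    HasDerivAt (fun s => ex G (c - s)) (-(ex G (c - t) * G)) t := by
  have h := (hasDerivAt_ex G (c - t)).scomp t ((hasDerivAt_id t).const_sub c)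
  simpa [Function.comp_def] using h

theorem hasDerivAt_ex_sub' (G : F) (c t : ℝ) :
    HasDerivAt (fun s => ex G (c - s)) (-(G * ex G (c - t))) t := by
  have h := (hasDerivAt_ex' G (c - t)).scomp t ((hasDerivAt_id t).const_sub c)
  simpa [Function.comp_def] using h

/-- derivative of `exp((c-s)X) exp(sY)` -/
theorem hasDerivAt_duhamel (X Y : F) (c t : ℝ) :
    HasDerivAt (fun s => ex X (c - s) * ex Y s) (-(ex X (c - t) * (X - Y) * ex Y t)) t := by
  have h := (hasDerivAt_ex_sub X c t).mul (hasDerivAt_ex' Y t)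
  have e : -(ex X (c - t) * (X - Y) * ex Y t)
      = -(ex X (c - t) * X) * ex Y t + ex X (c - t) * (Y * ex Y t) := by
    noncomm_ring
  rw [e]
  exact h

/-- Duhamel estimate -/
theorem duhamel {W : Type*} [NormedAddCommGroup W] [NormedSpace ℝ W] (Λ : F →L[ℝ] W)
    (X Y : F) {t C : ℝ} (ht : 0 ≤ t)
    (hb : ∀ s, 0 ≤ s → s ≤ t → ‖Λ (ex X (t - s) * (X - Y) * ex Y s)‖ ≤ C) :
    ‖Λ (ex X t - ex Y t)‖ ≤ C * t := by
  have h := mvt (f := fun s => Λ (ex X (t - s) * ex Y s))
    (f' := fun s => Λ (-(ex X (t - s) * (X - Y) * ex Y s))) ht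
    (fun x => (Λ.hasFDerivAt.comp_hasDerivAt x (hasDerivAt_duhamel X Y t x)))
    (fun x h0 h1 => by
      have := hb x h0 h1
      rw [map_neg, norm_neg]
      exact this)
  simp only [sub_self, ex_zero, one_mul, mul_one, sub_zero] at h
  rw [← map_sub, ← norm_neg, ← map_neg, neg_sub] at h
  exact h

theorem ex_sub_smul (H : F) (d s : ℝ) :
    ex (H - (d : ℂ) • (1 : F)) s = (Real.exp (-(d * s)) : ℂ) • ex H s := by
  have h1 : ((s : ℂ) • (H - (d : ℂ) • (1 : F))) = (s : ℂ) • H + (-(d * s) : ℂ) • (1 : F) := by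
    rw [smul_sub, smul_smul, sub_eq_add_neg, neg_smul]
    congr 2
    ring_nf
  have h2 : Commute ((s : ℂ) • H) ((-(d * s) : ℂ) • (1 : F)) := by
    rw [← Algebra.algebraMap_eq_smul_one]
    exact Algebra.commutes' _ _ |>.symm
  let _ : NormedAlgebra ℚ F := NormedAlgebra.restrictScalars ℚ ℂ F
  rw [ex, h1, NormedSpace.exp_add_of_commute h2, ← Algebra.algebraMap_eq_smul_one,
    ← NormedSpace.algebraMap_exp_comm, ex]
  rw [← Complex.exp_eq_exp_ℂ]
  rw [← Algebra.commutes, ← Algebra.smul_def]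
  push_cast
  rfl

end Pool.Agent.MQG.QG
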