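import Mathlib

set_option autoImplicit false

open Filter Topology ComplexOrder

namespace Pool.Agent.MQG.QG

universe u
variable {A : Type u} [NonUnitalCStarAlgebra A]

/-- positive functional -/
def PosF (φ : A →L[ℂ] ℂ) : Prop := ∀ a : A, ∃ r : ℝ, 0 ≤ r ∧ φ (star a * a) = (r : ℂ)

theorem PosF.add {φ ψ : A →L[ℂ] ℂ} (h1 : PosF φ) (h2 : PosF ψ) : PosF (φ + ψ) := by
  intro a
  obtain ⟨r, hr, hr'⟩ := h1 a
  obtain ⟨s, hs, hs'⟩ := h2 a
  exact ⟨r + s, by positivity, by simp [hr', hs']⟩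

theorem PosF.smul {φ : A →L[ℂ] ℂ} (h : PosF φ) {c : ℝ} (hc : 0 ≤ c) : PosF ((c : ℂ) • φ) := by
  intro a
  obtain ⟨r, hr, hr'⟩ := h a
  exact ⟨c * r, by positivity, by simp [hr']⟩

theorem PosF.zero : PosF (0 : A →L[ℂ] ℂ) := fun a => ⟨0, le_rfl, by simp⟩

section order

variable [PartialOrder A] [StarOrderedRing A]

/-- Cauchy–Schwarz for positive functionals. -/
theorem PosF.cauchy {φ : A →L[ℂ] ℂ} (h : PosF φ) (x y : A) :
    ‖φ (star x * y)‖ ^ 2 ≤ (φ (star x * x)).re * (φ (star y * y)).re := by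
  have hpos : ∀ a : A, 0 ≤ a → 0 ≤ φ a := by
    intro a ha
    obtain ⟨b, rfl⟩ := (CStarAlgebra.nonneg_iff_eq_star_mul_self (a := a)).1 ha
    obtain ⟨r, hr, hr'⟩ := h b
    rw [hr']
    exact_mod_cast hr
  let f : A →ₚ[ℂ] ℂ := PositiveLinearMap.mk₀ (φ : A →ₗ[ℂ] ℂ) hpos
  have h1 := norm_inner_le_norm (𝕜 := ℂ) (f.toPreGNS x) (f.toPreGNS y)
  rw [PositiveLinearMap.preGNS_inner_def, PositiveLinearMap.preGNS_norm_def,
    PositiveLinearMap.preGNS_norm_def] at h1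
  simp only [PositiveLinearMap.ofPreGNS_toPreGNS] at h1
  have hf : ∀ a, f a = φ a := fun a => rfl
  rw [hf, hf, hf] at h1
  have hx : 0 ≤ (φ (star x * x)).re := by
    obtain ⟨r, hr, hr'⟩ := h x
    rw [hr']; simpa using hr
  have hy : 0 ≤ (φ (star y * y)).re := by
    obtain ⟨r, hr, hr'⟩ := h y
    rw [hr']; simpa using hr
  calc ‖φ (star x * y)‖ ^ 2 ≤ (√(φ (star x * x)).re * √(φ (star y * y)).re) ^ 2 := by
        gcongr
    _ = _ := by
        rw [mul_pow, Real.sq_sqrt hx, Real.sq_sqrt hy]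

theorem PosF.eventually_le {φ : A →L[ℂ] ℂ} (h : PosF φ) {δ : ℝ} (hδ : 0 < δ) :
    ∀ᶠ e in CStarAlgebra.approximateUnit A, ‖φ‖ - δ ≤ (φ (star e * e)).re := by
  by_cases h0 : ‖φ‖ = 0
  · refine Eventually.of_forall fun e => ?_
    obtain ⟨r, hr, hr'⟩ := h e
    rw [hr', h0]
    simp only [Complex.ofReal_re]
    linarith
  have hpos : 0 < ‖φ‖ := lt_of_le_of_ne (norm_nonneg _) (Ne.symm h0)
  -- choose a with norm ≤ 1
  have hlt : ‖φ‖ - min (δ / 2) (‖φ‖ / 2) < ‖φ‖ := by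
    have : 0 < min (δ / 2) (‖φ‖ / 2) := by positivity
    linarith
  obtain ⟨a, ha1, ha⟩ := (φ : A →L[ℂ] ℂ).exists_lt_apply_of_lt_opNorm hlt
  set η := min (δ / 2) (‖φ‖ / 2) with hη
  have hη0 : 0 < η := by positivity
  have hη1 : η ≤ δ / 2 := min_le_left _ _
  have hη2 : η ≤ ‖φ‖ / 2 := min_le_right _ _
  have hl := CStarAlgebra.increasingApproximateUnit A
  have ht : Tendsto (fun e => ‖φ (e * a)‖) (CStarAlgebra.approximateUnit A) (𝓝 ‖φ a‖) :=
    ((φ.continuous.norm.tendsto _).comp (hl.tendsto_mul_right a))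
  have h1 : ∀ᶠ e in CStarAlgebra.approximateUnit A, ‖φ‖ - η < ‖φ (e * a)‖ :=
    ht.eventually_const_lt ha
  filter_upwards [h1, hl.eventually_star_eq] with e he hse
  have hc := h.cauchy e a
  have hee : star e * a = e * a := by rw [hse]
  rw [hee] at hc
  have hya : (φ (star a * a)).re ≤ ‖φ‖ := by
    calc (φ (star a * a)).re ≤ ‖φ (star a * a)‖ := Complex.re_le_norm _
      _ ≤ ‖φ‖ * ‖star a * a‖ := φ.le_opNorm _
      _ ≤ ‖φ‖ * 1 := by
          gcongr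
          calc ‖star a * a‖ ≤ ‖star a‖ * ‖a‖ := norm_mul_le _ _
            _ ≤ 1 * 1 := by
                rw [norm_star]
                gcongr
            _ = 1 := by norm_num
      _ = ‖φ‖ := mul_one _
  have hx0 : 0 ≤ (φ (star e * e)).re := by
    obtain ⟨r, hr, hr'⟩ := h e
    rw [hr']; simpa using hr
  have h2 : (‖φ‖ - η) ^ 2 ≤ (φ (star e * e)).re * ‖φ‖ := by
    calc (‖φ‖ - η) ^ 2 ≤ ‖φ (e * a)‖ ^ 2 := by
          have : 0 ≤ ‖φ‖ - η := by linarith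
          gcongr
      _ ≤ _ := hc
      _ ≤ _ := by gcongr
  have h3 : (‖φ‖ - δ) * ‖φ‖ ≤ (‖φ‖ - η) ^ 2 := by nlinarith
  have h4 : (‖φ‖ - δ) * ‖φ‖ ≤ (φ (star e * e)).re * ‖φ‖ := h3.trans h2
  exact le_of_mul_le_mul_right h4 hpos

theorem PosF.norm_add' {φ ψ : A →L[ℂ] ℂ} (h1 : PosF φ) (h2 : PosF ψ) :
    ‖φ + ψ‖ = ‖φ‖ + ‖ψ‖ := by
  refine le_antisymm (norm_add_le _ _) ?_
  refine le_of_forall_pos_le_add fun δ hδ => ?_
  have hl := CStarAlgebra.increasingApproximateUnit A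
  obtain ⟨e, he1, he2, he3⟩ := ((h1.eventually_le (half_pos hδ)).and
    ((h2.eventually_le (half_pos hδ)).and hl.eventually_norm)).exists
  have h3 : ‖(φ + ψ) (star e * e)‖ ≤ ‖φ + ψ‖ := by
    calc ‖(φ + ψ) (star e * e)‖ ≤ ‖φ + ψ‖ * ‖star e * e‖ := (φ + ψ).le_opNorm _
      _ ≤ ‖φ + ψ‖ * 1 := by
          gcongr
          calc ‖star e * e‖ ≤ ‖star e‖ * ‖e‖ := norm_mul_le _ _
            _ ≤ 1 * 1 := by
                rw [norm_star]
                gcongr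
            _ = 1 := by norm_num
      _ = _ := mul_one _
  have h4 : ((φ + ψ) (star e * e)).re ≤ ‖(φ + ψ) (star e * e)‖ := Complex.re_le_norm _
  have h5 : ((φ + ψ) (star e * e)).re = (φ (star e * e)).re + (ψ (star e * e)).re := by
    simp
  linarith

end order

theorem PosF.norm_add {φ ψ : A →L[ℂ] ℂ} (h1 : PosF φ) (h2 : PosF ψ) :
    ‖φ + ψ‖ = ‖φ‖ + ‖ψ‖ := by
  let _ : PartialOrder A := CStarAlgebra.spectralOrder A
  have _ : StarOrderedRing A := CStarAlgebra.spectralOrderedRing A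
  exact h1.norm_add' h2

end Pool.Agent.MQG.QG
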