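import Pool.Agent.MQG.QG.Defs
import Pool.Agent.MQG.QG.Pos
import Pool.Agent.MQG.QG.Exp

set_option autoImplicit false

open Filter Topology

namespace Pool.Agent.MQG.QG

universe u

variable {A E : Type u} [NonUnitalCStarAlgebra A] [NormedRing E] [NormedAlgebra ℂ E]

theorem complete_E (D : ConvData A E) : CompleteSpace E :=
  (IsometryEquiv.completeSpace_iff D.pair.toIsometryEquiv).2 inferInstance

def PosE (D : ConvData A E) (μ : E) : Prop := PosF (D.pair μ)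

theorem isState_iff (D : ConvData A E) (μ : E) : D.IsState μ ↔ ‖μ‖ = 1 ∧ PosE D μ := Iff.rfl

section pos

variable {D : ConvData A E}

theorem PosE.zero : PosE D 0 := by
  unfold PosE
  rw [map_zero]
  exact PosF.zero

theorem PosE.add {μ ν : E} (h1 : PosE D μ) (h2 : PosE D ν) : PosE D (μ + ν) := by
  unfold PosE
  rw [map_add]
  exact PosF.add h1 h2

theorem PosE.norm_add {μ ν : E} (h1 : PosE D μ) (h2 : PosE D ν) : ‖μ + ν‖ = ‖μ‖ + ‖ν‖ := by
  rw [← D.pair.norm_map, ← D.pair.norm_map μ, ← D.pair.norm_map ν, map_add]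
  exact PosF.norm_add h1 h2

theorem PosE.smul {μ : E} (h1 : PosE D μ) {c : ℝ} (hc : 0 ≤ c) : PosE D ((c : ℂ) • μ) := by
  unfold PosE
  rw [map_smul]
  exact PosF.smul h1 hc

theorem norm_csmul {c : ℝ} (hc : 0 ≤ c) (μ : E) : ‖(c : ℂ) • μ‖ = c * ‖μ‖ := by
  rw [norm_smul, Complex.norm_real, Real.norm_of_nonneg hc]

theorem isClosed_posE : IsClosed {μ : E | PosE D μ} := by
  have h1 : IsClosed {z : ℂ | ∃ r : ℝ, 0 ≤ r ∧ z = (r : ℂ)} := by
    have : {z : ℂ | ∃ r : ℝ, 0 ≤ r ∧ z = (r : ℂ)} = Complex.ofReal '' Set.Ici 0 := by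
      ext z
      simp [eq_comm]
    rw [this]
    exact Complex.isometry_ofReal.isClosedEmbedding.isClosedMap _ isClosed_Ici
  have : {μ : E | PosE D μ} = ⋂ a : A, (fun μ : E => D.pair μ (star a * a)) ⁻¹'
      {z : ℂ | ∃ r : ℝ, 0 ≤ r ∧ z = (r : ℂ)} := by
    ext μ
    simp [PosE, PosF]
  rw [this]
  refine isClosed_iInter fun a => h1.preimage ?_
  exact (ContinuousLinearMap.apply ℂ ℂ (star a * a)).continuous.comp D.pair.continuous

theorem isClosed_state : IsClosed {μ : E | D.IsState μ} := by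
  have : {μ : E | D.IsState μ} = {μ : E | ‖μ‖ = 1} ∩ {μ : E | PosE D μ} := rfl
  rw [this]
  exact (isClosed_eq continuous_norm continuous_const).inter isClosed_posE

end pos

variable (D : QGroup A E)

theorem PosE.normalize {D : ConvData A E} {μ : E} (h : PosE D μ) (h0 : ‖μ‖ ≠ 0) :
    D.IsState (((‖μ‖⁻¹ : ℝ) : ℂ) • μ) := by
  refine ⟨?_, h.smul (by positivity)⟩
  rw [norm_csmul (by positivity)]
  exact inv_mul_cancel₀ h0

theorem PosE.mul {μ ν : E} (h1 : PosE D.toConvData μ) (h2 : PosE D.toConvData ν) :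
    PosE D.toConvData (μ * ν) ∧ ‖μ * ν‖ = ‖μ‖ * ‖ν‖ := by
  by_cases h3 : ‖μ‖ = 0
  · have : μ = 0 := norm_eq_zero.1 h3
    subst this
    simp [PosE.zero]
  by_cases h4 : ‖ν‖ = 0
  · have : ν = 0 := norm_eq_zero.1 h4
    subst this
    simp [PosE.zero]
  have h5 := D.state_mul _ _ (h1.normalize h3) (h2.normalize h4)
  have h6 : μ * ν = ((‖μ‖ * ‖ν‖ : ℝ) : ℂ) •
      ((((‖μ‖⁻¹ : ℝ) : ℂ) • μ) * (((‖ν‖⁻¹ : ℝ) : ℂ) • ν)) := by
    rw [smul_mul_smul_comm, smul_smul, ← Complex.ofReal_mul, ← Complex.ofReal_mul]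
    have : ‖μ‖ * ‖ν‖ * (‖μ‖⁻¹ * ‖ν‖⁻¹) = 1 := by
      field_simp
    rw [this, Complex.ofReal_one, one_smul]
  constructor
  · rw [h6]
    exact PosE.smul h5.2 (by positivity)
  · rw [h6, norm_csmul (by positivity), h5.1, mul_one]

theorem PosE.pow {κ : E} (h : PosE D.toConvData κ) (n : ℕ) :
    PosE D.toConvData (κ ^ n) ∧ ‖κ ^ n‖ = ‖κ‖ ^ n := by
  induction n with
  | zero => simpa using ⟨D.counit_state.2, D.counit_state.1⟩
  | succ n ih =>
    rw [pow_succ, pow_succ]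
    have := PosE.mul D ih.1 h
    rw [ih.2] at this
    exact this

theorem PosE.sum {D : ConvData A E} {ι : Type*} (s : Finset ι) (f : ι → E)
    (h : ∀ i ∈ s, PosE D (f i)) :
    PosE D (∑ i ∈ s, f i) ∧ ‖∑ i ∈ s, f i‖ = ∑ i ∈ s, ‖f i‖ := by
  classical
  induction s using Finset.induction_on with
  | empty => simp [PosE.zero]
  | insert a s ha ih =>
    have h1 := ih fun i hi => h i (Finset.mem_insert_of_mem hi)
    have h2 := h a (Finset.mem_insert_self _ _)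
    rw [Finset.sum_insert ha, Finset.sum_insert ha]
    exact ⟨h2.add h1.1, by rw [h2.norm_add h1.1, h1.2]⟩

theorem PosE.exp [CompleteSpace E] {κ : E} (h : PosE D.toConvData κ) :
    PosE D.toConvData (NormedSpace.exp κ) ∧ ‖NormedSpace.exp κ‖ = Real.exp ‖κ‖ := by
  have hs := (NormedSpace.exp_series_hasSum_exp' (𝕂 := ℂ) κ).tendsto_sum_nat
  have hterm : ∀ n : ℕ, PosE D.toConvData ((n.factorial⁻¹ : ℂ) • κ ^ n) ∧
      ‖(n.factorial⁻¹ : ℂ) • κ ^ n‖ = ‖κ‖ ^ n / n.factorial := by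
    intro n
    have h1 := PosE.pow D h n
    have h2 : (n.factorial⁻¹ : ℂ) = (((n.factorial : ℝ)⁻¹ : ℝ) : ℂ) := by push_cast; rfl
    rw [h2]
    refine ⟨h1.1.smul (by positivity), ?_⟩
    rw [norm_csmul (by positivity), h1.2]
    field_simp
  have hsum := fun N : ℕ => PosE.sum (D := D.toConvData) (Finset.range N)
    (fun n : ℕ => (n.factorial⁻¹ : ℂ) • κ ^ n) (fun n _ => (hterm n).1)
  constructor
  · exact isClosed_posE.mem_of_tendsto hs (Eventually.of_forall fun N => (hsum N).1)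
  · have h1 : Tendsto (fun N : ℕ => ‖∑ n ∈ Finset.range N, (n.factorial⁻¹ : ℂ) • κ ^ n‖) atTop
        (𝓝 ‖NormedSpace.exp κ‖) := hs.norm
    have h2 : Tendsto (fun N : ℕ => ‖∑ n ∈ Finset.range N, (n.factorial⁻¹ : ℂ) • κ ^ n‖) atTop
        (𝓝 (Real.exp ‖κ‖)) := by
      have h3 : (fun N : ℕ => ‖∑ n ∈ Finset.range N, (n.factorial⁻¹ : ℂ) • κ ^ n‖) =
          fun N : ℕ => ∑ n ∈ Finset.range N, ‖κ‖ ^ n / n.factorial := by
        funext N
        rw [(hsum N).2]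
        exact Finset.sum_congr rfl fun n _ => (hterm n).2
      rw [h3]
      have h4 := (NormedSpace.expSeries_div_hasSum_exp (‖κ‖ : ℝ)).tendsto_sum_nat
      rw [← Real.exp_eq_exp_ℝ] at h4
      exact h4
    exact tendsto_nhds_unique h1 h2

/-- generators of convolution semigroups of compound Poisson type -/
def Gen (D : ConvData A E) (G : E) : Prop :=
  ∃ κ : E, PosE D κ ∧ G = κ - ((‖κ‖ : ℝ) : ℂ) • (1 : E)

theorem Gen.zero {D : ConvData A E} : Gen D 0 := ⟨0, PosE.zero, by simp⟩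

theorem Gen.add {D : ConvData A E} {G H : E} (h1 : Gen D G) (h2 : Gen D H) : Gen D (G + H) := by
  obtain ⟨κ, hκ, rfl⟩ := h1
  obtain ⟨ρ, hρ, rfl⟩ := h2
  refine ⟨κ + ρ, hκ.add hρ, ?_⟩
  rw [hκ.norm_add hρ, Complex.ofReal_add, add_smul]
  abel

theorem Gen.jump {D : ConvData A E} {s : E} (hs : D.IsState s) {c : ℝ} (hc : 0 ≤ c) :
    Gen D ((c : ℂ) • (s - 1)) := by
  refine ⟨(c : ℂ) • s, PosE.smul hs.2 hc, ?_⟩
  rw [norm_csmul hc, hs.1, mul_one, smul_sub]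

theorem Gen.isState_ex [CompleteSpace E] {G : E} (h : Gen D.toConvData G) {t : ℝ} (ht : 0 ≤ t) :
    D.IsState (ex G t) := by
  obtain ⟨κ, hκ, rfl⟩ := h
  have h1 := PosE.exp D (hκ.smul ht)
  rw [ex_sub_smul]
  refine ⟨?_, PosE.smul h1.1 (Real.exp_pos _).le⟩
  rw [norm_csmul (Real.exp_pos _).le]
  change _ * ‖NormedSpace.exp ((t : ℂ) • κ)‖ = 1
  rw [h1.2, norm_csmul ht, ← Real.exp_add]
  rw [show -(‖κ‖ * t) + t * ‖κ‖ = 0 by ring, Real.exp_zero]

end Pool.Agent.MQG.QG
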