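import Pool.Agent.MQG.QG.Slices

set_option autoImplicit false

open Filter Topology

namespace Pool.Agent.MQG.QG

universe u

variable {A E M : Type u} [NonUnitalCStarAlgebra A] [NormedRing E] [NormedAlgebra ℂ E]
  [NormedRing M] [NormedAlgebra ℂ M]

section ideal

variable {D : QGroup A E} (R : Rep D M)

theorem pow_sub_pow_mem {x y : M} (hx : x ∈ R.B) (hy : ∀ b ∈ R.B, y * b ∈ R.B ∧ b * y ∈ R.B)
    (n : ℕ) : (x + y) ^ n - y ^ n ∈ R.B := by
  have hyn : ∀ (n : ℕ), ∀ b ∈ R.B, y ^ n * b ∈ R.B := by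
    intro n
    induction n with
    | zero => intro b hb; simpa using hb
    | succ n ih =>
      intro b hb
      rw [pow_succ, mul_assoc]
      exact ih _ (hy b hb).1
  induction n with
  | zero => simp
  | succ n ih =>
    have : (x + y) ^ (n + 1) - y ^ (n + 1) = (((x + y) ^ n - y ^ n) * x +
        ((x + y) ^ n - y ^ n) * y) + y ^ n * x := by
      rw [pow_succ, pow_succ]
      noncomm_ring
    rw [this]
    exact R.B.add_mem (R.B.add_mem (R.mul_mem _ ih _ hx) (hy _ ih).2) (hyn n x hx)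

variable [CompleteSpace M]

theorem exp_sub_exp_mem {x y : M} (hx : x ∈ R.B)
    (hy : ∀ b ∈ R.B, y * b ∈ R.B ∧ b * y ∈ R.B) :
    NormedSpace.exp (x + y) - NormedSpace.exp y ∈ R.B := by
  have h1 := (NormedSpace.exp_series_hasSum_exp' (𝕂 := ℂ) (x + y)).sub
    (NormedSpace.exp_series_hasSum_exp' (𝕂 := ℂ) y)
  have h2 := h1.tendsto_sum_nat
  refine R.closed.mem_of_tendsto h2 (Eventually.of_forall fun N => ?_)
  refine R.B.sum_mem fun n _ => ?_
  rw [← smul_sub]
  exact R.B.smul_mem _ (pow_sub_pow_mem R hx hy n)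

theorem ex_sub_ex_mem {x y : M} (hx : x ∈ R.B)
    (hy : ∀ b ∈ R.B, y * b ∈ R.B ∧ b * y ∈ R.B) (t : ℝ) :
    ex (x + y) t - ex y t ∈ R.B := by
  unfold ex
  rw [smul_add]
  refine exp_sub_exp_mem R (R.B.smul_mem _ hx) fun b hb => ?_
  rw [smul_mul_assoc, mul_smul_comm]
  exact ⟨R.B.smul_mem _ (hy b hb).1, R.B.smul_mem _ (hy b hb).2⟩

end ideal

theorem inB_iff {D : QGroup A E} (R : Rep D M) (μ : E) : R.InB μ ↔ R.T μ ∈ R.B := Iff.rfl

theorem T_continuous {D : QGroup A E} (R : Rep D M) : Continuous R.T := by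
  refine AddMonoidHomClass.continuous_of_bound R.T 1 fun μ => ?_
  rw [one_mul]
  exact R.norm_le μ

theorem T_ex {D : QGroup A E} [CompleteSpace E] (R : Rep D M) (G : E) (t : ℝ) :
    R.T (ex G t) = ex (R.T G) t := by
  let _ : NormedAlgebra ℚ E := NormedAlgebra.restrictScalars ℚ ℂ E
  let _ : NormedAlgebra ℚ M := NormedAlgebra.restrictScalars ℚ ℂ M
  unfold ex
  rw [← map_smul]
  exact NormedSpace.map_exp R.T (T_continuous R) _

theorem tendsto_mul_of_fst {D : QGroup A E} (R : Rep D M) {l : Filter E}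
    (h : ∀ b ∈ R.B, Tendsto (fun μ => R.T μ * b) l (𝓝 b)) {x : M}
    (hx : x ∈ R.B) : Tendsto (fun μ => (R.T μ - 1) * x) l (𝓝 0) := by
  have h1 := (h x hx)
  rw [tendsto_zero_iff_norm_tendsto_zero]
  simp only [sub_mul, one_mul]
  exact tendsto_iff_norm_sub_tendsto_zero.1 h1

theorem tendsto_mul_of_snd {D : QGroup A E} (R : Rep D M) {l : Filter E}
    (h : ∀ b ∈ R.B, Tendsto (fun μ => b * R.T μ) l (𝓝 b)) {x : M}
    (hx : x ∈ R.B) : Tendsto (fun μ => x * (R.T μ - 1)) l (𝓝 0) := by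
  have h1 := (h x hx)
  rw [tendsto_zero_iff_norm_tendsto_zero]
  simp only [mul_sub, mul_one]
  exact tendsto_iff_norm_sub_tendsto_zero.1 h1

end Pool.Agent.MQG.QG
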