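import Pool.Agent.MQG.QG.RunT
import Pool.Agent.MQG.QG.RunInv

set_option autoImplicit false

open Filter Topology

namespace Pool.Agent.MQG.QG

universe u

variable {A E M : Type u} [NonUnitalCStarAlgebra A] [NormedRing E] [NormedAlgebra ℂ E]
  [NormedRing M] [NormedAlgebra ℂ M] [CompleteSpace M]

theorem pair_inj (D : ConvData A E) {μ ν : E} (h : ∀ x, D.pair μ x = D.pair ν x) : μ = ν :=
  D.pair.injective (ContinuousLinearMap.ext h)

theorem isClosed_nonnegC : IsClosed {z : ℂ | ∃ r : ℝ, 0 ≤ r ∧ z = (r : ℂ)} := by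
  have : {z : ℂ | ∃ r : ℝ, 0 ≤ r ∧ z = (r : ℂ)} = Complex.ofReal '' Set.Ici 0 := by
    ext z
    simp [eq_comm]
  rw [this]
  exact Complex.isometry_ofReal.isClosedEmbedding.isClosedMap _ isClosed_Ici

theorem norm_le_of_tendsto (D : ConvData A E) {α : ℕ → E} {β : E} {C : ℝ} (hC : 0 ≤ C)
    (h : ∀ x, Tendsto (fun n => D.pair (α n) x) atTop (𝓝 (D.pair β x)))
    (hb : ∀ᶠ n in atTop, ‖α n‖ ≤ C) : ‖β‖ ≤ C := by
  rw [← D.pair.norm_map β]
  refine ContinuousLinearMap.opNorm_le_bound _ hC fun x => ?_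
  refine le_of_tendsto (h x).norm ?_
  filter_upwards [hb] with n hn
  exact (norm_pair_le D _ _).trans (by gcongr)

/-- A sequence with geometrically small steps is Cauchy. -/
theorem cauchy_of_geom {V : Type*} [NormedAddCommGroup V] {v : ℕ → V} {K : ℝ} {N : ℕ}
    (h : ∀ n, N ≤ n → ‖v (n + 1) - v n‖ ≤ (1 / 2) ^ n * K) : CauchySeq v := by
  have hc : CauchySeq fun n => v (n + N) := by
    refine cauchySeq_of_dist_le_of_summable (fun n => (1 / 2) ^ (n + N) * K) (fun n => ?_)
      (((summable_nat_add_iff N).2 summable_geometric_two).mul_right K)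
    rw [dist_comm, dist_eq_norm]
    have : n.succ + N = (n + N) + 1 := by omega
    rw [this]
    exact h _ (by omega)
  exact (cauchySeq_shift N).1 hc

theorem dist_of_geom {V : Type*} [NormedAddCommGroup V] {v : ℕ → V} {K : ℝ} {N : ℕ}
    (h : ∀ n, N ≤ n → ‖v (n + 1) - v n‖ ≤ (1 / 2) ^ n * K) (m : ℕ) :
    ‖v (N + m) - v N‖ ≤ 2 * ((1 / 2) ^ N - (1 / 2) ^ (N + m)) * K := by
  induction m with
  | zero => simp
  | succ m ih =>
    have e : v (N + (m + 1)) - v N = (v (N + m + 1) - v (N + m)) + (v (N + m) - v N) := by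
      rw [← add_assoc]; abel
    rw [e]
    calc _ ≤ ‖v (N + m + 1) - v (N + m)‖ + ‖v (N + m) - v N‖ := norm_add_le _ _
      _ ≤ (1 / 2) ^ (N + m) * K + 2 * ((1 / 2) ^ N - (1 / 2) ^ (N + m)) * K :=
          add_le_add (h _ (by omega)) ih
      _ = _ := by rw [← add_assoc N m 1, pow_succ]; ring

namespace Run

variable {D : QGroup A E} {R : Rep D M} {a : ℕ → A} {w : ℕ → E} {ω₀ : E}
  (r : Run D R a w ω₀)

variable [CompleteSpace E]

theorem slice_step' (n k : ℕ) (hk : k ≤ n) {t : ℝ} (ht0 : 0 ≤ t) (ht : t ≤ n) :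
    ‖Rm D.toConvData (ex (r.G (n + 1)) t) (a k) - Rm D.toConvData (ex (r.G n) t) (a k)‖
      ≤ (1 / 2) ^ n * ((1 + 2 * ‖a k‖) * t) := by
  refine (r.slice_step n k hk ht0 ht).trans ?_
  have h1 : (1 / 4 : ℝ) ^ n ≤ (1 / 2) ^ n := by gcongr; norm_num
  calc ((1 / 2) ^ n + 2 * (1 / 4) ^ n * ‖a k‖) * t
      ≤ ((1 / 2) ^ n + 2 * (1 / 2) ^ n * ‖a k‖) * t := by gcongr
    _ = _ := by ring

theorem Rm_le (n : ℕ) {t : ℝ} (ht : 0 ≤ t) (x : A) :
    ‖Rm D.toConvData (ex (r.G n) t) x‖ ≤ ‖x‖ := by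
  have := Rm_norm_le D.toConvData (ex (r.G n) t) x
  rwa [(r.st n ht).1, one_mul] at this

theorem slice_lim (ha : DenseRange a) {t : ℝ} (ht : 0 ≤ t) (x : A) :
    ∃ y, Tendsto (fun n => Rm D.toConvData (ex (r.G n) t) x) atTop (𝓝 y) := by
  refine cauchySeq_tendsto_of_complete ?_
  rw [Metric.cauchySeq_iff]
  intro ε hε
  obtain ⟨k, hk⟩ := ha.exists_dist_lt x (show 0 < ε / 3 by positivity)
  obtain ⟨N₀, hN₀⟩ := exists_nat_ge t
  have hc : CauchySeq fun n => Rm D.toConvData (ex (r.G n) t) (a k) := by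
    refine cauchy_of_geom (K := (1 + 2 * ‖a k‖) * t) (N := max k N₀) fun n hn => ?_
    refine r.slice_step' n k (le_of_max_le_left hn) ht (hN₀.trans ?_)
    exact_mod_cast le_of_max_le_right hn
  obtain ⟨N, hN⟩ := Metric.cauchySeq_iff.1 hc (ε / 3) (by positivity)
  refine ⟨N, fun m hm n hn => ?_⟩
  have h1 := hN m hm n hn
  rw [dist_eq_norm] at h1 hk ⊢
  set V := fun n => Rm D.toConvData (ex (r.G n) t) with hV
  have e : V m x - V n x = V m (x - a k) + (V m (a k) - V n (a k)) - V n (x - a k) := by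
    simp only [map_sub]
    abel
  change ‖V m x - V n x‖ < ε
  rw [e]
  calc _ ≤ ‖V m (x - a k)‖ + ‖V m (a k) - V n (a k)‖ + ‖V n (x - a k)‖ :=
        (norm_sub_le _ _).trans (add_le_add (norm_add_le _ _) le_rfl)
    _ < ε / 3 + ε / 3 + ε / 3 := by
        have h2 := r.Rm_le m ht (x - a k)
        have h3 := r.Rm_le n ht (x - a k)
        exact add_lt_add (add_lt_add (h2.trans_lt hk) h1) (h3.trans_lt hk)
    _ = ε := by ring

omit [CompleteSpace E] in
theorem pair_one_Rm (D : ConvData A E) (μ : E) (x : A) : D.pair 1 (Rm D μ x) = D.pair μ x := by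
  rw [pair_Rm, one_mul]

theorem exists_limit (ha : DenseRange a) {t : ℝ} (ht : 0 ≤ t) :
    ∃ μ : E, ∀ x, Tendsto (fun n => D.pair (ex (r.G n) t) x) atTop (𝓝 (D.pair μ x)) := by
  choose S hS using fun x => r.slice_lim ha ht x
  have h1 : ∀ x, Tendsto (fun n => D.pair (ex (r.G n) t) x) atTop (𝓝 (D.pair 1 (S x))) := by
    intro x
    have := ((D.pair 1).continuous.tendsto _).comp (hS x)
    refine this.congr fun n => ?_
    exact pair_one_Rm _ _ _
  let φ : A →L[ℂ] ℂ := continuousLinearMapOfTendsto (fun n => D.pair (ex (r.G n) t))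
    (f := fun x => D.pair 1 (S x)) (tendsto_pi_nhds.2 h1)
  refine ⟨D.pair.symm φ, fun x => ?_⟩
  rw [LinearIsometryEquiv.apply_symm_apply]
  exact h1 x

include r in
/-- the limit of the convolution semigroups satisfies condition (S) -/
theorem condS (ha : DenseRange a) (hω₀ : D.IsState ω₀)
    (hw : ∀ k, D.IsState (w k))
    (hdense : ∀ ω ∈ D.L1, D.IsState ω → ∀ ε > 0, ∃ k, ‖ω - w k‖ < ε) : D.CondS R := by
  choose μ' hμ' using fun (t : ℝ) (ht : 0 ≤ t) => r.exists_limit ha ht
  classical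
  let μ : ℝ → E := fun t => if h : 0 ≤ t then μ' t h else 1
  have hμ : ∀ t, 0 ≤ t → ∀ x, Tendsto (fun n => D.pair (ex (r.G n) t) x) atTop
      (𝓝 (D.pair (μ t) x)) := by
    intro t ht x
    have : μ t = μ' t ht := dif_pos ht
    rw [this]
    exact hμ' t ht x
  -- products
  have hmulL : ∀ t, 0 ≤ t → ∀ ν x, Tendsto (fun n => D.pair (ν * ex (r.G n) t) x) atTop
      (𝓝 (D.pair (ν * μ t) x)) := by
    intro t ht ν x
    have := hμ t ht (Lm D.toConvData ν x)
    simpa only [pair_Lm] using this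
  have hmulR : ∀ t, 0 ≤ t → ∀ ν x, Tendsto (fun n => D.pair (ex (r.G n) t * ν) x) atTop
      (𝓝 (D.pair (μ t * ν) x)) := by
    intro t ht ν x
    have := hμ t ht (Rm D.toConvData ν x)
    simpa only [pair_Rm] using this
  -- slices
  have hRS : ∀ t, 0 ≤ t → ∀ x, Tendsto (fun n => Rm D.toConvData (ex (r.G n) t) x) atTop
      (𝓝 (Rm D.toConvData (μ t) x)) := by
    intro t ht x
    obtain ⟨y, hy⟩ := r.slice_lim ha ht x
    have : Rm D.toConvData (μ t) x = y := by
      refine pair_ext D.toConvData fun ν => ?_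
      rw [pair_Rm]
      refine tendsto_nhds_unique (hmulL t ht ν x) ?_
      have := ((D.pair ν).continuous.tendsto _).comp hy
      refine this.congr fun n => ?_
      exact pair_Rm _ _ _ _
    rw [this]
    exact hy
  -- semigroup property
  have hadd : ∀ s t, 0 ≤ s → 0 ≤ t → μ (s + t) = μ s * μ t := by
    intro s t hs ht
    refine pair_inj D.toConvData fun x => ?_
    refine tendsto_nhds_unique (hμ (s + t) (add_nonneg hs ht) x) ?_
    have h1 : Tendsto (fun n => D.pair (ex (r.G n) s) (Rm D.toConvData (μ t) x)) atTop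
        (𝓝 (D.pair (μ s * μ t) x)) := by
      have := hμ s hs (Rm D.toConvData (μ t) x)
      rwa [pair_Rm] at this
    have h2 : Tendsto (fun n => D.pair (ex (r.G n) s)
        (Rm D.toConvData (ex (r.G n) t) x - Rm D.toConvData (μ t) x)) atTop (𝓝 0) := by
      have h3 : Tendsto (fun n => ‖Rm D.toConvData (ex (r.G n) t) x - Rm D.toConvData (μ t) x‖)
          atTop (𝓝 0) := tendsto_iff_norm_sub_tendsto_zero.1 (hRS t ht x)
      refine squeeze_zero_norm (fun n => ?_) h3
      have := norm_pair_le D.toConvData (ex (r.G n) s)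
        (Rm D.toConvData (ex (r.G n) t) x - Rm D.toConvData (μ t) x)
      rwa [(r.st n hs).1, one_mul] at this
    have h4 := h2.add h1
    rw [zero_add] at h4
    refine h4.congr fun n => ?_
    rw [← map_add, sub_add_cancel, pair_Rm, ← ex_add]
  -- states
  have hnorm : ∀ t, 0 ≤ t → ‖μ t‖ ≤ 1 := fun t ht =>
    norm_le_of_tendsto D.toConvData zero_le_one (hμ t ht)
      (Eventually.of_forall fun n => (r.st n ht).1.le)
  have hst : ∀ t, 0 ≤ t → D.IsState (μ t) := by
    intro t ht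
    refine ⟨le_antisymm (hnorm t ht) ?_, fun x => ?_⟩
    · obtain ⟨N₀, hN₀⟩ := exists_nat_ge t
      have hc : CauchySeq fun n => ex (r.G n) t * ω₀ := by
        refine cauchy_of_geom (K := 3 * t) (N := N₀) fun n hn => ?_
        refine (r.mass_step n hω₀.1.le ht (hN₀.trans (by exact_mod_cast hn))).trans ?_
        have h1 : (1 / 4 : ℝ) ^ n ≤ (1 / 2) ^ n := by gcongr; norm_num
        calc ((1 / 2) ^ n + 2 * (1 / 4) ^ n) * t ≤ ((1 / 2) ^ n + 2 * (1 / 2) ^ n) * t := by gcongr
          _ = _ := by ring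
      obtain ⟨z, hz⟩ := cauchySeq_tendsto_of_complete hc
      have hz1 : D.IsState z := isClosed_state.mem_of_tendsto hz
        (Eventually.of_forall fun n => D.state_mul _ _ (r.st n ht) hω₀)
      have hz2 : z = μ t * ω₀ := by
        refine pair_inj D.toConvData fun x => ?_
        refine tendsto_nhds_unique ?_ (hmulR t ht ω₀ x)
        have : Continuous fun μ : E => D.pair μ x :=
          (ContinuousLinearMap.apply ℂ ℂ x).continuous.comp D.pair.continuous
        exact (this.tendsto _).comp hz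
      have h5 : (1 : ℝ) ≤ ‖μ t‖ * ‖ω₀‖ := by
        rw [← hz1.1, hz2]
        exact norm_mul_le _ _
      rwa [hω₀.1, mul_one] at h5
    · exact isClosed_nonnegC.mem_of_tendsto (hμ t ht (star x * x))
        (Eventually.of_forall fun n => (r.st n ht).2 x)
  refine ⟨μ, hst, ?_, hadd, ?_, ?_, ?_⟩
  · refine pair_inj D.toConvData fun x => ?_
    refine tendsto_nhds_unique (hμ 0 le_rfl x) ?_
    simp only [ex_zero]
    exact tendsto_const_nhds
  · -- weak* continuity at zero
    intro x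
    rw [Metric.tendsto_nhds]
    intro ε hε
    obtain ⟨k, hk⟩ := ha.exists_dist_lt x (show 0 < ε / 4 by positivity)
    rw [dist_eq_norm] at hk
    set N := k + 1 with hN
    set K := 1 + 2 * ‖a k‖ with hK
    have hK0 : 0 < K := by positivity
    have h1 : ∀ t, 0 ≤ t → t ≤ 1 → ‖D.pair (μ t) (a k) - D.pair (ex (r.G N) t) (a k)‖ ≤
        2 * (K * t) := by
      intro t ht0 ht1
      have h2 : ∀ n, N ≤ n → ‖D.pair (ex (r.G (n + 1)) t) (a k) - D.pair (ex (r.G n) t) (a k)‖
          ≤ (1 / 2) ^ n * (K * t) := by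
        intro n hn
        rw [← pair_one_Rm, ← pair_one_Rm D.toConvData (ex (r.G n) t), ← map_sub]
        refine (norm_pair_le _ _ _).trans ?_
        rw [D.counit_state.1, one_mul]
        refine r.slice_step' n k (by omega) ht0 (ht1.trans ?_)
        have : 1 ≤ n := by omega
        exact_mod_cast this
      have h3 := dist_of_geom (v := fun n => D.pair (ex (r.G n) t) (a k)) h2
      have h4 : Tendsto (fun m => ‖D.pair (ex (r.G (N + m)) t) (a k) -
          D.pair (ex (r.G N) t) (a k)‖) atTop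
          (𝓝 ‖D.pair (μ t) (a k) - D.pair (ex (r.G N) t) (a k)‖) := by
        have := (hμ t ht0 (a k)).comp (tendsto_add_atTop_nat N)
        have h5 : Tendsto (fun m => D.pair (ex (r.G (N + m)) t) (a k)) atTop
            (𝓝 (D.pair (μ t) (a k))) := by
          refine this.congr fun m => ?_
          simp [add_comm]
        exact (h5.sub_const _).norm
      refine le_of_tendsto h4 (Eventually.of_forall fun m => (h3 m).trans ?_)
      have h6 : (0 : ℝ) < (1 / 2) ^ (N + m) := by positivity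
      have h7 : (1 / 2 : ℝ) ^ N ≤ 1 := pow_le_one₀ (by norm_num) (by norm_num)
      have h8 : 0 ≤ K * t := by positivity
      nlinarith
    have h9 : Tendsto (fun t : ℝ => D.pair (ex (r.G N) t) (a k)) (𝓝[>] 0)
        (𝓝 (D.pair 1 (a k))) := by
      have : Continuous fun t : ℝ => D.pair (ex (r.G N) t) (a k) :=
        ((ContinuousLinearMap.apply ℂ ℂ (a k)).continuous.comp D.pair.continuous).comp
          (continuous_ex _)
      have h := this.tendsto 0
      rw [ex_zero] at h
      exact h.mono_left nhdsWithin_le_nhds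
    have h10 := (Metric.tendsto_nhds.1 h9) (ε / 4) (by positivity)
    have h11 : ∀ᶠ t : ℝ in 𝓝[>] 0, t < min 1 (ε / (8 * K)) :=
      nhdsWithin_le_nhds (gt_mem_nhds (by positivity))
    filter_upwards [h10, h11, self_mem_nhdsWithin] with t ht10 ht11 ht0
    have ht0' : 0 < t := ht0
    have ht1 : t ≤ 1 := (ht11.trans_le (min_le_left _ _)).le
    have ht2 : t < ε / (8 * K) := ht11.trans_le (min_le_right _ _)
    rw [dist_eq_norm] at ht10 ⊢
    have h12 := h1 t ht0'.le ht1
    have h13 : 2 * (K * t) < ε / 4 := by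
      rw [lt_div_iff₀ (by positivity)] at ht2
      linarith
    have e : D.pair (μ t) x - D.pair 1 x = D.pair (μ t) (x - a k) +
        (D.pair (μ t) (a k) - D.pair (ex (r.G N) t) (a k)) +
        (D.pair (ex (r.G N) t) (a k) - D.pair 1 (a k)) - D.pair 1 (x - a k) := by
      simp only [map_sub]
      ring
    rw [e]
    have h14 : ‖D.pair (μ t) (x - a k)‖ ≤ ‖x - a k‖ := by
      have := norm_pair_le D.toConvData (μ t) (x - a k)
      rwa [(hst t ht0'.le).1, one_mul] at this
    have h15 : ‖D.pair 1 (x - a k)‖ ≤ ‖x - a k‖ := by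
      have := norm_pair_le D.toConvData 1 (x - a k)
      rwa [D.counit_state.1, one_mul] at this
    calc _ ≤ ‖D.pair (μ t) (x - a k)‖ +
          ‖D.pair (μ t) (a k) - D.pair (ex (r.G N) t) (a k)‖ +
          ‖D.pair (ex (r.G N) t) (a k) - D.pair 1 (a k)‖ + ‖D.pair 1 (x - a k)‖ :=
          (norm_sub_le _ _).trans (add_le_add norm_add₃_le le_rfl)
      _ < ε / 4 + ε / 4 + ε / 4 + ε / 4 := by linarith
      _ = ε := by ring
  · -- asymptotic invariance
    intro ω hω hω'
    rw [Metric.tendsto_atTop]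
    intro ε hε
    obtain ⟨k, hk⟩ := hdense ω hω hω' (ε / 2) (by positivity)
    have h1 := (tendsto_θ.eventually_lt_const (half_pos hε)).and (eventually_ge_atTop k)
    obtain ⟨n, hn1, hn2⟩ := h1.exists
    have hθ0 : 0 ≤ θ n := by unfold θ; positivity
    refine ⟨max 0 ((n + 1) / r.d n), fun t ht => ?_⟩
    have ht0 : 0 ≤ t := (le_max_left _ _).trans ht
    have ht1 : (n + 1) / r.d n ≤ t := (le_max_right _ _).trans ht
    have h2 : ‖(w k - 1) * μ t‖ ≤ θ n := by
      refine norm_le_of_tendsto D.toConvData hθ0 (hmulL t ht0 (w k - 1)) ?_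
      filter_upwards [eventually_ge_atTop (n + 1)] with N hN
      obtain ⟨j, rfl⟩ := Nat.exists_eq_add_of_le hN
      exact r.inv_bound n j k hn2 (hw k) ht1
    rw [Real.dist_eq, sub_zero, abs_of_nonneg (norm_nonneg _)]
    have e : ω * μ t - μ t = (ω - w k) * μ t + (w k - 1) * μ t := by noncomm_ring
    rw [e]
    calc _ ≤ ‖(ω - w k) * μ t‖ + ‖(w k - 1) * μ t‖ := norm_add_le _ _
      _ ≤ ‖ω - w k‖ * ‖μ t‖ + θ n := add_le_add (norm_mul_le _ _) h2
      _ < ε / 2 + ε / 2 := by
          rw [(hst t ht0).1, mul_one]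
          exact add_lt_add hk hn1
      _ = ε := by ring
  · -- membership in `B`
    intro t ht
    obtain ⟨x, hxB, hx⟩ := r.T_lim ht
    have h1 : R.T (μ t) = x := by
      rw [← sub_eq_zero]
      refine R.separating _ fun p hp => ?_
      have h2 : Tendsto (fun n => D.pair (ex (r.G n) t) (R.slice ⟨p, hp⟩)) atTop
          (𝓝 (D.pair (μ t) (R.slice ⟨p, hp⟩))) := hμ t ht.le _
      have h3 : Tendsto (fun n => p (R.T (ex (r.G n) t))) atTop (𝓝 (p x)) :=
        (p.continuous.tendsto _).comp hx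
      have h7 : ∀ n, p (R.T (ex (r.G n) t)) =
          D.pair (ex (r.G n) t) (R.slice ⟨p, hp⟩) := fun n => R.slice_pair ⟨p, hp⟩ _
      simp only [h7] at h3
      have h8 := tendsto_nhds_unique h2 h3
      have h9 : p (R.T (μ t)) = D.pair (μ t) (R.slice ⟨p, hp⟩) :=
        R.slice_pair ⟨p, hp⟩ _
      rw [map_sub, h9, h8, sub_self]
    rw [inB_iff, h1]
    exact hxB

end Run

end Pool.Agent.MQG.QG
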