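import Pool.Agent.MQG.QG.Gen

set_option autoImplicit false

open Filter Topology

namespace Pool.Agent.MQG.QG

universe u

theorem unif {ι V W : Type*} [NormedAddCommGroup V] [NormedAddCommGroup W] {l : Filter ι}
    {F : ι → V → W} {L : ℝ} (hL : ∀ᶠ i in l, ∀ x y, ‖F i x - F i y‖ ≤ L * ‖x - y‖) {K : Set V}
    (hK : IsCompact K) (hF : ∀ x ∈ K, Tendsto (fun i => F i x) l (𝓝 0)) {δ : ℝ} (hδ : 0 < δ) :
    ∀ᶠ i in l, ∀ x ∈ K, ‖F i x‖ ≤ δ := by
  have hL' : 0 < |L| + 1 := by positivity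
  have he : 0 < δ / 2 / (|L| + 1) := by positivity
  obtain ⟨t, ht, htf, hcov⟩ := hK.finite_cover_balls he
  have h1 : ∀ᶠ i in l, ∀ x ∈ t, ‖F i x‖ ≤ δ / 2 := by
    rw [htf.eventually_all]
    intro x hx
    have h2 := (hF x (ht hx)).norm
    rw [norm_zero] at h2
    exact (h2.eventually_lt_const (half_pos hδ)).mono fun i hi => hi.le
  filter_upwards [hL, h1] with i hi1 hi2 x hx
  obtain ⟨y, hy, hxy⟩ := Set.mem_iUnion₂.1 (hcov hx)
  have h3 : ‖x - y‖ < δ / 2 / (|L| + 1) := by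
    rw [Metric.mem_ball, dist_eq_norm] at hxy
    exact hxy
  have h4 : L * ‖x - y‖ ≤ δ / 2 := by
    calc L * ‖x - y‖ ≤ (|L| + 1) * ‖x - y‖ := by
          gcongr
          linarith [le_abs_self L]
      _ ≤ (|L| + 1) * (δ / 2 / (|L| + 1)) := by gcongr
      _ = δ / 2 := by field_simp
  calc ‖F i x‖ = ‖(F i x - F i y) + F i y‖ := by rw [sub_add_cancel]
    _ ≤ ‖F i x - F i y‖ + ‖F i y‖ := norm_add_le _ _
    _ ≤ δ / 2 + δ / 2 := add_le_add ((hi1 x y).trans h4) (hi2 y hy)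
    _ = δ := by ring

/-- Mazur: a weak limit along a filter containing a convex set is a norm limit of elements
of the convex set. -/
theorem mazur {V X : Type*} [NormedAddCommGroup V] [NormedSpace ℝ V] [NormedAddCommGroup X]
    [NormedSpace ℝ X] {l : Filter V} [l.NeBot] {U : Set V} (hU : Convex ℝ U) (hUl : U ∈ l)
    (Ψ : V →ₗ[ℝ] X) (x₀ : X)
    (h : ∀ f : X →L[ℝ] ℝ, Tendsto (fun μ => f (Ψ μ)) l (𝓝 (f x₀))) {δ : ℝ} (hδ : 0 < δ) :
    ∃ μ ∈ U, ‖Ψ μ - x₀‖ ≤ δ := by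
  by_contra hcon
  push Not at hcon
  have h1 : Disjoint (Metric.ball x₀ δ) (Ψ '' U) := by
    rw [Set.disjoint_left]
    rintro _ hx ⟨μ, hμ, rfl⟩
    have h2 := hcon μ hμ
    rw [Metric.mem_ball, dist_eq_norm] at hx
    exact absurd hx (not_lt.2 h2.le)
  obtain ⟨f, u, hf1, hf2⟩ := geometric_hahn_banach_open (convex_ball x₀ δ) Metric.isOpen_ball
    (hU.linear_image Ψ) h1
  have h3 : f x₀ < u := hf1 x₀ (Metric.mem_ball_self hδ)
  have h4 := (h f).eventually_lt_const h3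
  obtain ⟨μ, hμ1, hμ2⟩ := (h4.and hUl).exists
  exact absurd (hf2 _ ⟨μ, hμ2, rfl⟩) (not_le.2 hμ1)

variable {A E : Type u} [NonUnitalCStarAlgebra A] [NormedRing E] [NormedAlgebra ℂ E]

section

variable (D : ConvData A E)

theorem pair_ext {x y : A} (h : ∀ ν : E, D.pair ν x = D.pair ν y) : x = y := by
  rw [SeparatingDual.eq_iff_forall_dual_eq (R := ℂ)]
  intro f
  have := h (D.pair.symm f)
  simpa using this

theorem norm_le_of_pair {x : A} {C : ℝ} (hC : 0 ≤ C) (h : ∀ ν : E, ‖D.pair ν x‖ ≤ C * ‖ν‖) :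
    ‖x‖ ≤ C := by
  refine NormedSpace.norm_le_dual_bound ℂ x hC fun f => ?_
  have := h (D.pair.symm f)
  simpa using this

theorem norm_pair_le (ν : E) (x : A) : ‖D.pair ν x‖ ≤ ‖ν‖ * ‖x‖ := by
  have := (D.pair ν).le_opNorm x
  rwa [D.pair.norm_map] at this

/-- the slice maps as a bounded bilinear map -/
noncomputable def Rm : E →L[ℂ] A →L[ℂ] A :=
  LinearMap.mkContinuous₂ (LinearMap.mk₂ ℂ D.sliceR
    (fun μ μ' a => pair_ext D fun ν => by
      simp only [map_add, ← D.pair_mul_right, mul_add, add_apply])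
    (fun c μ a => pair_ext D fun ν => by
      simp only [map_smul, ← D.pair_mul_right, mul_smul_comm, smul_apply])
    (fun μ a b => pair_ext D fun ν => by
      simp only [map_add, ← D.pair_mul_right])
    (fun c μ a => pair_ext D fun ν => by
      simp only [map_smul, ← D.pair_mul_right])) 1
    (fun μ a => norm_le_of_pair D (by positivity) fun ν => by
      simp only [LinearMap.mk₂_apply, ← D.pair_mul_right]
      calc ‖D.pair (ν * μ) a‖ ≤ ‖ν * μ‖ * ‖a‖ := norm_pair_le D _ _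
        _ ≤ ‖ν‖ * ‖μ‖ * ‖a‖ := by gcongr; exact norm_mul_le _ _
        _ = 1 * ‖μ‖ * ‖a‖ * ‖ν‖ := by ring)

theorem Rm_apply (μ : E) (a : A) : Rm D μ a = D.sliceR μ a := rfl

theorem pair_Rm (ν μ : E) (a : A) : D.pair ν (Rm D μ a) = D.pair (ν * μ) a :=
  (D.pair_mul_right ν μ a).symm

/-- the left slice maps as a bounded bilinear map -/
noncomputable def Lm : E →L[ℂ] A →L[ℂ] A :=
  LinearMap.mkContinuous₂ (LinearMap.mk₂ ℂ D.sliceL
    (fun μ μ' a => pair_ext D fun ν => by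
      simp only [map_add, ← D.pair_mul_left, add_mul, add_apply])
    (fun c μ a => pair_ext D fun ν => by
      simp only [map_smul, ← D.pair_mul_left, smul_mul_assoc, smul_apply])
    (fun μ a b => pair_ext D fun ν => by
      simp only [map_add, ← D.pair_mul_left])
    (fun c μ a => pair_ext D fun ν => by
      simp only [map_smul, ← D.pair_mul_left])) 1
    (fun μ a => norm_le_of_pair D (by positivity) fun ν => by
      simp only [LinearMap.mk₂_apply, ← D.pair_mul_left]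
      calc ‖D.pair (μ * ν) a‖ ≤ ‖μ * ν‖ * ‖a‖ := norm_pair_le D _ _
        _ ≤ ‖μ‖ * ‖ν‖ * ‖a‖ := by gcongr; exact norm_mul_le _ _
        _ = 1 * ‖μ‖ * ‖a‖ * ‖ν‖ := by ring)

theorem pair_Lm (ν μ : E) (a : A) : D.pair μ (Lm D ν a) = D.pair (ν * μ) a :=
  (D.pair_mul_left ν μ a).symm

theorem Rm_norm_le (μ : E) (a : A) : ‖Rm D μ a‖ ≤ ‖μ‖ * ‖a‖ :=
  norm_le_of_pair D (by positivity) fun ν => by
    rw [pair_Rm]
    calc ‖D.pair (ν * μ) a‖ ≤ ‖ν * μ‖ * ‖a‖ := norm_pair_le D _ _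
      _ ≤ ‖ν‖ * ‖μ‖ * ‖a‖ := by gcongr; exact norm_mul_le _ _
      _ = ‖μ‖ * ‖a‖ * ‖ν‖ := by ring

theorem Rm_mul (μ ν : E) (a : A) : Rm D (μ * ν) a = Rm D μ (Rm D ν a) :=
  pair_ext D fun ρ => by
    rw [pair_Rm, pair_Rm, pair_Rm, mul_assoc]

theorem Rm_one (a : A) : Rm D 1 a = a :=
  pair_ext D fun ρ => by rw [pair_Rm, mul_one]

end

end Pool.Agent.MQG.QG
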