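import Pool.Agent.MQG.QG.Weak

set_option autoImplicit false

open Filter Topology

namespace Pool.Agent.MQG.QG

universe u

variable {A E M : Type u} [NonUnitalCStarAlgebra A] [NormedRing E] [NormedAlgebra ℂ E]
  [NormedRing M] [NormedAlgebra ℂ M] [CompleteSpace M]

section

variable {D : QGroup A E} (R : Rep D M)

theorem tendsto_pair_of_fst {l : Filter E} (hs : ∀ᶠ μ in l, D.IsState μ)
    (h : ∀ b ∈ R.B, Tendsto (fun μ => R.T μ * b) l (𝓝 b)) (h1 : ‖(1 : E)‖ ≤ 1) (a : A) :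
    Tendsto (fun μ => D.pair μ a) l (𝓝 (D.pair 1 a)) := by
  have key : ∀ a ∈ Submodule.span ℂ (Set.range R.slice),
      Tendsto (fun μ => D.pair μ a) l (𝓝 (D.pair 1 a)) := by
    intro a ha
    induction ha using Submodule.span_induction with
    | mem x hx =>
      obtain ⟨p, rfl⟩ := hx
      have h2 : Tendsto (fun μ => p.1 (R.T μ)) l (𝓝 (p.1 1)) := R.Φ_tendsto p.1 p.2 l hs h
      have h3 : p.1 1 = D.pair 1 (R.slice p) := by
        rw [← R.slice_pair p 1, map_one R.T]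
      rw [h3] at h2
      refine h2.congr fun μ => R.slice_pair p μ
    | zero => simpa using tendsto_const_nhds
    | add x y _ _ hx hy => simpa using hx.add hy
    | smul c x _ hx => simpa using hx.const_smul c
  rw [Metric.tendsto_nhds]
  intro ε hε
  obtain ⟨b, hb, hab⟩ := R.slice_dense.exists_dist_lt a (show 0 < ε / 3 by positivity)
  have h2 := (Metric.tendsto_nhds.1 (key b hb)) (ε / 3) (by positivity)
  filter_upwards [h2, hs] with μ hμ hμs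
  rw [dist_eq_norm] at hμ hab ⊢
  have e : D.pair μ a - D.pair 1 a = D.pair μ (a - b) + (D.pair μ b - D.pair 1 b)
      - D.pair 1 (a - b) := by
    simp only [map_sub]
    ring
  rw [e]
  have h3 : ‖D.pair μ (a - b)‖ ≤ ‖a - b‖ := by
    have := norm_pair_le D.toConvData μ (a - b)
    rwa [hμs.1, one_mul] at this
  have h4 : ‖D.pair 1 (a - b)‖ ≤ ‖a - b‖ := by
    have := norm_pair_le D.toConvData 1 (a - b)
    calc _ ≤ ‖(1 : E)‖ * ‖a - b‖ := this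
      _ ≤ 1 * ‖a - b‖ := by gcongr
      _ = _ := one_mul _
  calc _ ≤ ‖D.pair μ (a - b) + (D.pair μ b - D.pair 1 b)‖ + ‖D.pair 1 (a - b)‖ := norm_sub_le _ _
    _ ≤ ‖D.pair μ (a - b)‖ + ‖D.pair μ b - D.pair 1 b‖ + ‖D.pair 1 (a - b)‖ := by
        gcongr
        exact norm_add_le _ _
    _ < ε / 3 + ε / 3 + ε / 3 := by linarith
    _ = ε := by ring

theorem le_nearUnit {l : Filter E} (hs : ∀ᶠ μ in l, D.IsState μ)
    (h : ∀ b ∈ R.B, Tendsto (fun μ => R.T μ * b) l (𝓝 b)) (h1 : ‖(1 : E)‖ ≤ 1) :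
    l ≤ D.nearUnit := by
  refine le_inf ?_ (le_principal_iff.2 hs)
  rw [← tendsto_iff_comap, tendsto_pi_nhds]
  exact fun a => tendsto_pair_of_fst R hs h h1 a

end

variable (D : QGroup A E) (R : Rep D M)

/-- a stage of the inductive construction -/
structure Stage where
  G : E
  Y : E
  S : ℝ
  L : Set E
  gen : Gen D.toConvData G
  ideal : R.T (G - Y) ∈ R.B
  Ymul : ∀ b ∈ R.B, R.T Y * b ∈ R.B ∧ b * R.T Y ∈ R.B
  S0 : 0 ≤ S
  Lc : IsCompact L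
  LL1 : ∀ x ∈ L, x ∈ D.L1

variable {D R}

/-- the requirements on the choices at stage `n` -/
structure StepCond (a : ℕ → A) (w : ℕ → E) (ω₀ : E) (n : ℕ) (σ : Stage D R) (d : ℝ) (ρ μ : E) :
    Prop where
  d0 : 0 < d
  d1 : d ≤ (1 / 4) ^ n / (1 + σ.S)
  ρL1 : ρ ∈ D.L1
  ρst : D.IsState ρ
  μst : D.IsState μ
  μB : R.T μ ∈ R.B
  inv : ∀ k ≤ n, ∀ s, 0 ≤ s → s ≤ (n + 1) / d →
    ‖(w k - 1) * (ex σ.G s * ρ)‖ ≤ (1 / 2) ^ n / (n + 2)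
  old : ∀ x ∈ σ.L, ‖(μ - 1) * x‖ ≤ (1 / 4) ^ n / (1 + max σ.S ((n + 1) / d))
  new : ∀ r, 0 ≤ r → r ≤ (n + 1) / d →
    ‖(μ - 1) * (ex σ.G r * ρ)‖ ≤ (1 / 4) ^ n / (1 + max σ.S ((n + 1) / d))
  sl : ∀ k ≤ n, ∀ s, 0 ≤ s → s ≤ (n : ℝ) →
    ‖Rm D.toConvData (μ - 1) (Rm D.toConvData (ex σ.G s) (a k))‖ ≤ (1 / 2) ^ n
  mass : ∀ s, 0 ≤ s → s ≤ (n : ℝ) → ‖(μ - 1) * (ex σ.G s * ω₀)‖ ≤ (1 / 2) ^ n
  left : ∀ r, 0 ≤ r → r ≤ (n : ℝ) →
    ‖(R.T μ - 1) * (ex (R.T σ.G) r - ex (R.T σ.Y) r)‖ ≤ (1 / 2) ^ n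
  right : ∀ r, 0 ≤ r → r ≤ (n : ℝ) →
    ‖(ex (R.T σ.G) r - ex (R.T σ.Y) r) * (R.T μ - 1)‖ ≤ (1 / 2) ^ n

theorem norm_one_le (D : QGroup A E) : ‖(1 : E)‖ ≤ 1 := D.counit_state.1.le

theorem exists_rho [CompleteSpace E] {la : Filter E} (hla : la.NeBot)
    (hla1 : ∀ᶠ μ in la, μ ∈ D.L1 ∧ D.IsState μ)
    (hla2 : ∀ ω ∈ D.L1, D.IsState ω → Tendsto (fun μ => ‖ω * μ - μ‖) la (𝓝 0))
    {ω₀ : E} (hω : ω₀ ∈ D.L1) (hω' : D.IsState ω₀) {w : ℕ → E}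
    (hw' : ∀ k, D.IsState (w k)) {G : E} (hG : Gen D.toConvData G) (n : ℕ) {S η : ℝ}
    (hη : 0 < η) :
    ∃ ρ ∈ D.L1, D.IsState ρ ∧ ∀ k ≤ n, ∀ s, 0 ≤ s → s ≤ S → ‖(w k - 1) * (ex G s * ρ)‖ ≤ η := by
  set C : Set E := (fun s => ex G s * ω₀) '' Set.Icc 0 S with hC
  have hCc : IsCompact C := isCompact_Icc.image ((continuous_ex G).mul continuous_const)
  have hCst : ∀ x ∈ C, x ∈ D.L1 ∧ D.IsState x := by
    rintro _ ⟨s, hs, rfl⟩
    exact ⟨D.L1_mul_left _ _ (hG.isState_ex D hs.1) hω, D.state_mul _ _ (hG.isState_ex D hs.1) hω'⟩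
  have hlip : ∀ᶠ ν in la, ∀ x y : E, ‖(x * ν - ν) - (y * ν - ν)‖ ≤ 1 * ‖x - y‖ := by
    filter_upwards [hla1] with ν hν x y
    have : (x * ν - ν) - (y * ν - ν) = (x - y) * ν := by noncomm_ring
    rw [this, one_mul]
    calc _ ≤ ‖x - y‖ * ‖ν‖ := norm_mul_le _ _
      _ = _ := by rw [hν.2.1, mul_one]
  have h1 : ∀ᶠ ν in la, ∀ x ∈ C, ‖x * ν - ν‖ ≤ η / 2 :=
    unif (F := fun ν x => x * ν - ν) hlip hCc (fun x hx => by
      have := hla2 x (hCst x hx).1 (hCst x hx).2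
      exact tendsto_zero_iff_norm_tendsto_zero.2 this) (half_pos hη)
  have h2 : ∀ᶠ ν in la, ∀ k ∈ Finset.range (n + 1), ∀ x ∈ (fun y => w k * y) '' C,
      ‖x * ν - ν‖ ≤ η / 2 := by
    rw [Filter.eventually_all_finset]
    intro k _
    refine unif (F := fun ν x => x * ν - ν) hlip
      (hCc.image (continuous_const.mul continuous_id)) (fun x hx => ?_) (half_pos hη)
    obtain ⟨y, hy, rfl⟩ := hx
    have := hla2 (w k * y) (D.L1_mul_left _ _ (hw' k) (hCst y hy).1)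
      (D.state_mul _ _ (hw' k) (hCst y hy).2)
    exact tendsto_zero_iff_norm_tendsto_zero.2 this
  obtain ⟨ν, hν1, hν2, hν3⟩ := (h1.and (h2.and hla1)).exists
  refine ⟨ω₀ * ν, D.L1_mul_left _ _ hω' hν3.1, D.state_mul _ _ hω' hν3.2, fun k hk s hs0 hsS => ?_⟩
  have hx : ex G s * ω₀ ∈ C := ⟨s, ⟨hs0, hsS⟩, rfl⟩
  have e : (w k - 1) * (ex G s * (ω₀ * ν)) = ((w k * (ex G s * ω₀)) * ν - ν)
      - ((ex G s * ω₀) * ν - ν) := by noncomm_ring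
  rw [e]
  calc _ ≤ ‖(w k * (ex G s * ω₀)) * ν - ν‖ + ‖(ex G s * ω₀) * ν - ν‖ := norm_sub_le _ _
    _ ≤ η / 2 + η / 2 := add_le_add
        (hν2 k (Finset.mem_range.2 (by omega)) _ ⟨_, hx, rfl⟩) (hν1 _ hx)
    _ = η := by ring

theorem exists_step [CompleteSpace E] {la : Filter E} (hla : la.NeBot)
    (hla1 : ∀ᶠ μ in la, μ ∈ D.L1 ∧ D.IsState μ)
    (hla2 : ∀ ω ∈ D.L1, D.IsState ω → Tendsto (fun μ => ‖ω * μ - μ‖) la (𝓝 0))
    {ω₀ : E} (hω : ω₀ ∈ D.L1) (hω' : D.IsState ω₀) {w : ℕ → E}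
    (hw' : ∀ k, D.IsState (w k))
    {lh : Filter E} (hlh : lh.NeBot) (hlh1 : ∀ᶠ μ in lh, D.IsState μ ∧ R.InB μ)
    (hlh2 : ∀ b ∈ R.B, Tendsto (fun μ => R.T μ * b) lh (𝓝 b))
    (hlh3 : ∀ b ∈ R.B, Tendsto (fun μ => b * R.T μ) lh (𝓝 b))
    (a : ℕ → A) (n : ℕ) (σ : Stage D R) :
    ∃ (d : ℝ) (ρ μ : E), StepCond a w ω₀ n σ d ρ μ := by
  set d : ℝ := (1 / 4) ^ n / (1 + σ.S) with hd
  have hS0 := σ.S0
  have hd0 : 0 < d := by positivity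
  set S : ℝ := (n + 1) / d with hS
  obtain ⟨ρ, hρL, hρs, hρ⟩ := exists_rho hla hla1 hla2 hω hω' hw' σ.gen n (S := S)
    (η := (1 / 2) ^ n / (n + 2)) (by positivity)
  have hmax : 0 ≤ max σ.S S := le_max_of_le_left σ.S0
  have hst : ∀ᶠ μ in lh, D.IsState μ := hlh1.mono fun μ h => h.1
  have hnear : lh ≤ D.nearUnit := le_nearUnit R hst hlh2 (norm_one_le D)
  have hb : ∀ r : ℝ, ex (R.T σ.G) r - ex (R.T σ.Y) r ∈ R.B := by
    intro r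
    have h1 := ex_sub_ex_mem R (x := R.T (σ.G - σ.Y)) (y := R.T σ.Y) σ.ideal σ.Ymul r
    rw [map_sub, sub_add_cancel] at h1
    exact h1
  have hbc : Continuous fun r : ℝ => ex (R.T σ.G) r - ex (R.T σ.Y) r :=
    (continuous_ex _).sub (continuous_ex _)
  have hT2 : ∀ μ : E, D.IsState μ → ‖R.T μ - 1‖ ≤ 1 + ‖(1 : M)‖ :=
    fun μ hμ => by
    calc _ ≤ ‖R.T μ‖ + ‖(1 : M)‖ := norm_sub_le _ _
      _ ≤ _ := by gcongr; exact (R.norm_le μ).trans hμ.1.le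
  have e5 := unif (l := lh) (F := fun μ x => (R.T μ - 1) * x)
    (L := 1 + ‖(1 : M)‖)
    (by
      filter_upwards [hst] with μ hμ x y
      rw [← mul_sub]
      calc _ ≤ ‖R.T μ - 1‖ * ‖x - y‖ := norm_mul_le _ _
        _ ≤ _ := by gcongr; exact hT2 μ hμ)
    (K := (fun r : ℝ => ex (R.T σ.G) r - ex (R.T σ.Y) r) '' Set.Icc 0 (n : ℝ))
    (isCompact_Icc.image hbc)
    (fun x hx => by
      obtain ⟨r, _, rfl⟩ := hx
      exact tendsto_mul_of_fst R hlh2 (hb r))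
    (δ := (1 / 2) ^ n) (by positivity)
  have e6 := unif (l := lh) (F := fun μ x => x * (R.T μ - 1))
    (L := 1 + ‖(1 : M)‖)
    (by
      filter_upwards [hst] with μ hμ x y
      rw [← sub_mul, mul_comm _ ‖x - y‖]
      calc _ ≤ ‖x - y‖ * ‖R.T μ - 1‖ := norm_mul_le _ _
        _ ≤ _ := by gcongr; exact hT2 μ hμ)
    (K := (fun r : ℝ => ex (R.T σ.G) r - ex (R.T σ.Y) r) '' Set.Icc 0 (n : ℝ))
    (isCompact_Icc.image hbc)
    (fun x hx => by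
      obtain ⟨r, _, rfl⟩ := hx
      exact tendsto_mul_of_snd R hlh3 (hb r))
    (δ := (1 / 2) ^ n) (by positivity)
  -- the convex set
  set U : Set E := {μ | D.IsState μ ∧ R.T μ ∈ R.B ∧
    (∀ r, 0 ≤ r → r ≤ (n : ℝ) →
      ‖(R.T μ - 1) * (ex (R.T σ.G) r - ex (R.T σ.Y) r)‖ ≤ (1 / 2) ^ n) ∧
    (∀ r, 0 ≤ r → r ≤ (n : ℝ) →
      ‖(ex (R.T σ.G) r - ex (R.T σ.Y) r) * (R.T μ - 1)‖ ≤ (1 / 2) ^ n)} with hU
  have hUl : U ∈ lh := by
    filter_upwards [e5, e6, hlh1] with μ h5 h6 h7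
    exact ⟨h7.1, h7.2, fun r hr0 hr1 => h5 _ ⟨r, ⟨hr0, hr1⟩, rfl⟩,
      fun r hr0 hr1 => h6 _ ⟨r, ⟨hr0, hr1⟩, rfl⟩⟩
  have hUc : Convex ℝ U := by
    intro μ hμ ν hν a b ha hb hab
    have hc : ∀ (c : ℝ) (x : E), c • x = (c : ℂ) • x := fun c x => by rw [Complex.coe_smul]
    have hT : R.T (a • μ + b • ν) - 1 = (a : ℂ) • (R.T μ - 1) + (b : ℂ) • (R.T ν - 1) := by
      rw [hc, hc, map_add, map_smul, map_smul, smul_sub, smul_sub]
      have h1 : (1 : M) = (a : ℂ) • (1 : M) +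
          (b : ℂ) • (1 : M) := by
        rw [← add_smul]
        have : (a : ℂ) + (b : ℂ) = 1 := by exact_mod_cast hab
        rw [this, one_smul]
      nth_rewrite 1 [h1]
      abel
    have hna : ‖(a : ℂ)‖ = a := by rw [Complex.norm_real, Real.norm_of_nonneg ha]
    have hnb : ‖(b : ℂ)‖ = b := by rw [Complex.norm_real, Real.norm_of_nonneg hb]
    refine ⟨IsState.combo hμ.1 hν.1 ha hb hab, ?_, fun r hr0 hr1 => ?_, fun r hr0 hr1 => ?_⟩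
    · rw [hc, hc, map_add, map_smul, map_smul]
      exact R.B.add_mem (R.B.smul_mem _ hμ.2.1) (R.B.smul_mem _ hν.2.1)
    · rw [hT, add_mul, smul_mul_assoc, smul_mul_assoc]
      calc _ ≤ ‖(a : ℂ) • ((R.T μ - 1) * (ex (R.T σ.G) r - ex (R.T σ.Y) r))‖ +
            ‖(b : ℂ) • ((R.T ν - 1) * (ex (R.T σ.G) r - ex (R.T σ.Y) r))‖ := norm_add_le _ _
        _ = a * ‖(R.T μ - 1) * (ex (R.T σ.G) r - ex (R.T σ.Y) r)‖ +
            b * ‖(R.T ν - 1) * (ex (R.T σ.G) r - ex (R.T σ.Y) r)‖ := by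
              rw [norm_smul, norm_smul, hna, hnb]
        _ ≤ a * (1 / 2) ^ n + b * (1 / 2) ^ n := by
              gcongr
              · exact hμ.2.2.1 r hr0 hr1
              · exact hν.2.2.1 r hr0 hr1
        _ = (1 / 2) ^ n := by rw [← add_mul, hab, one_mul]
    · rw [hT, mul_add, mul_smul_comm, mul_smul_comm]
      calc _ ≤ ‖(a : ℂ) • ((ex (R.T σ.G) r - ex (R.T σ.Y) r) * (R.T μ - 1))‖ +
            ‖(b : ℂ) • ((ex (R.T σ.G) r - ex (R.T σ.Y) r) * (R.T ν - 1))‖ := norm_add_le _ _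
        _ = a * ‖(ex (R.T σ.G) r - ex (R.T σ.Y) r) * (R.T μ - 1)‖ +
            b * ‖(ex (R.T σ.G) r - ex (R.T σ.Y) r) * (R.T ν - 1)‖ := by
              rw [norm_smul, norm_smul, hna, hnb]
        _ ≤ a * (1 / 2) ^ n + b * (1 / 2) ^ n := by
              gcongr
              · exact hμ.2.2.2 r hr0 hr1
              · exact hν.2.2.2 r hr0 hr1
        _ = (1 / 2) ^ n := by rw [← add_mul, hab, one_mul]
  -- the compact sets
  have hc1 : IsCompact ((fun s => ex σ.G s * ρ) '' Set.Icc 0 S) :=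
    isCompact_Icc.image ((continuous_ex σ.G).mul continuous_const)
  have hc2 : IsCompact ((fun s => ex σ.G s * ω₀) '' Set.Icc 0 (n : ℝ)) :=
    isCompact_Icc.image ((continuous_ex σ.G).mul continuous_const)
  have hc3 : IsCompact (⋃ k ∈ Finset.range (n + 1),
      (fun s => Rm D.toConvData (ex σ.G s) (a k)) '' Set.Icc 0 (n : ℝ)) := by
    refine (Finset.range (n + 1)).isCompact_biUnion fun k _ => isCompact_Icc.image ?_
    have h1 : Continuous fun s => Rm D.toConvData (ex σ.G s) :=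
      (Rm D.toConvData).continuous.comp (continuous_ex σ.G)
    exact h1.clm_apply continuous_const
  have hKL : ∀ x ∈ (σ.L ∪ (fun s => ex σ.G s * ρ) '' Set.Icc 0 S) ∪
      (fun s => ex σ.G s * ω₀) '' Set.Icc 0 (n : ℝ), x ∈ D.L1 := by
    rintro x ((hx | ⟨s, hs, rfl⟩) | ⟨s, hs, rfl⟩)
    · exact σ.LL1 x hx
    · exact D.L1_mul_left _ _ (σ.gen.isState_ex D hs.1) hρL
    · exact D.L1_mul_left _ _ (σ.gen.isState_ex D hs.1) hω
  have hδ0 : 0 < (1 / 4 : ℝ) ^ n / (1 + max σ.S S) := by positivity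
  have hδ1 : (1 / 4 : ℝ) ^ n / (1 + max σ.S S) ≤ (1 / 2) ^ n := by
    calc (1 / 4 : ℝ) ^ n / (1 + max σ.S S) ≤ (1 / 4 : ℝ) ^ n / 1 := by
          gcongr
          linarith
      _ = (1 / 4 : ℝ) ^ n := div_one _
      _ ≤ (1 / 2) ^ n := by
          gcongr
          norm_num
  obtain ⟨μ, hμU, hμK, hμK'⟩ := exists_weak D hnear hUc hUl (fun μ hμ => hμ.1)
    ((σ.Lc.union hc1).union hc2) hKL hc3 hδ0
  exact ⟨d, ρ, μ, {
    d0 := hd0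
    d1 := le_rfl
    ρL1 := hρL
    ρst := hρs
    μst := hμU.1
    μB := hμU.2.1
    inv := hρ
    old := fun x hx => hμK x (Or.inl (Or.inl hx))
    new := fun r hr0 hr1 => hμK _ (Or.inl (Or.inr ⟨r, ⟨hr0, hr1⟩, rfl⟩))
    sl := fun k hk s hs0 hs1 => (hμK' _ (Set.mem_iUnion₂.2
      ⟨k, Finset.mem_range.2 (by omega), ⟨s, ⟨hs0, hs1⟩, rfl⟩⟩)).trans hδ1
    mass := fun s hs0 hs1 => (hμK _ (Or.inr ⟨s, ⟨hs0, hs1⟩, rfl⟩)).trans hδ1
    left := hμU.2.2.1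
    right := hμU.2.2.2 }⟩

/-- the next stage -/
noncomputable def Stage.next [CompleteSpace E] {a : ℕ → A} {w : ℕ → E} {ω₀ : E} {n : ℕ}
    (σ : Stage D R) {d : ℝ} {ρ μ : E} (h : StepCond a w ω₀ n σ d ρ μ) : Stage D R where
  G := σ.G + ((1 / ((n : ℝ) + 1) : ℝ) : ℂ) • (μ - 1) + (d : ℂ) • (ρ - 1)
  Y := σ.Y - ((1 / ((n : ℝ) + 1) : ℝ) : ℂ) • (1 : E) + (d : ℂ) • (ρ - 1)
  S := max σ.S ((n + 1) / d)
  L := σ.L ∪ (fun r => ex σ.G r * ρ) '' Set.Icc 0 ((n + 1) / d)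
  gen := (σ.gen.add (Gen.jump h.μst (by positivity))).add (Gen.jump h.ρst h.d0.le)
  ideal := by
    have e : (σ.G + ((1 / ((n : ℝ) + 1) : ℝ) : ℂ) • (μ - 1) + (d : ℂ) • (ρ - 1)) -
        (σ.Y - ((1 / ((n : ℝ) + 1) : ℝ) : ℂ) • (1 : E) + (d : ℂ) • (ρ - 1)) =
        (σ.G - σ.Y) + ((1 / ((n : ℝ) + 1) : ℝ) : ℂ) • μ := by
      rw [smul_sub]
      abel
    rw [e, map_add, map_smul]
    exact R.B.add_mem σ.ideal (R.B.smul_mem _ h.μB)
  Ymul := by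
    intro b hb
    have hρ := R.L1_mem ρ h.ρL1
    have e : R.T (σ.Y - ((1 / ((n : ℝ) + 1) : ℝ) : ℂ) • (1 : E) + (d : ℂ) • (ρ - 1)) =
        R.T σ.Y - ((1 / ((n : ℝ) + 1) : ℝ) : ℂ) • (1 : M) + (d : ℂ) • (R.T ρ - 1) := by
      rw [map_add, map_sub, map_smul, map_smul, map_sub, map_one]
    rw [e, add_mul, sub_mul, mul_add, mul_sub, smul_mul_assoc, smul_mul_assoc, mul_smul_comm,
      mul_smul_comm, one_mul, mul_one, sub_mul, mul_sub, one_mul, mul_one]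
    exact ⟨R.B.add_mem (R.B.sub_mem (σ.Ymul b hb).1 (R.B.smul_mem _ hb))
      (R.B.smul_mem _ (R.B.sub_mem (R.mul_mem _ hρ _ hb) hb)),
      R.B.add_mem (R.B.sub_mem (σ.Ymul b hb).2 (R.B.smul_mem _ hb))
      (R.B.smul_mem _ (R.B.sub_mem (R.mul_mem _ hb _ hρ) hb))⟩
  S0 := le_max_of_le_left σ.S0
  Lc := σ.Lc.union (isCompact_Icc.image ((continuous_ex σ.G).mul continuous_const))
  LL1 := by
    rintro x (hx | ⟨r, hr, rfl⟩)
    · exact σ.LL1 x hx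
    · exact D.L1_mul_left _ _ (σ.gen.isState_ex D hr.1) h.ρL1

end Pool.Agent.MQG.QG
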